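import Pool.Agent.H34.GU.Targets1
import Pool.Agent.H8.GZ.H1Z

/-!
Row H1U of the board gu_modules (MP_52e316_nt): composition of two kernels, vectors modulo `N`
(helper8).
-/

set_option autoImplicit false

namespace Pool.Agent.H8.GU

open MeasureTheory Pool.Agent.H34.GM Pool.Agent.H34.GZ Pool.Agent.H34.GU Pool.Agent.H8.GZ

/-- the condition of the kernel on the product -/
def IU {m N : ℕ} (y : ℝ) (g : Mat m) (x : VN m N) (k : Mat m) (z : VN m N) (γ : ZM m) : Prop :=
  ac N γ x = z ∧ Pr z ∧ y ^ 2 / 4 < (γ.det.natAbs : ℝ) ∧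
    (γ.det.natAbs : ℝ) ≤ y ^ 2 ∧ sz (kk (aN (cR γ)) k (cR γ) g) ≤ 4 * m

open Classical in
/-- one pair -/
theorem pairU_le (hIDX : T_IDX) {m N : ℕ} [NeZero N]
    (hac : ∀ (α β : ZM m) (x : VN m N), ac N (α * β) x = ac N α (ac N β x))
    (y : ℝ) (hy : 0 < y) (g k : Mat m)
    (x z : VN m N) (h : V m) (hh : (mt h).det ≠ 0) (α β : ZM m) :
    ∑ w : VN m N, (if ac N α x = w ∧ Pr w ∧ y / 2 < (α.det.natAbs : ℝ) ∧
      (α.det.natAbs : ℝ) ≤ y ∧ sz (kk (aN (cR α)) (mt h) (cR α) g) ≤ 2 then (1 : ENNReal) else 0) *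
      (if ac N β w = z ∧ Pr z ∧ y / 2 < (β.det.natAbs : ℝ) ∧
      (β.det.natAbs : ℝ) ≤ y ∧ sz (kk (aN (cR β)) k (cR β) (mt h)) ≤ 2 then (1 : ENNReal) else 0) ≤
    if α.det ≠ 0 then (if IU y g x k z (β * α) then GG g (β * α) α h else 0) else 0 := by
  rw [Finset.sum_eq_single (ac N α x) (fun w _ hw => by
    rw [if_neg (fun h => hw h.1.symm), zero_mul]) (fun h => absurd (Finset.mem_univ _) h)]
  by_cases hA : ac N α x = ac N α x ∧ Pr (ac N α x) ∧ y / 2 < (α.det.natAbs : ℝ) ∧
      (α.det.natAbs : ℝ) ≤ y ∧ sz (kk (aN (cR α)) (mt h) (cR α) g) ≤ 2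
  · by_cases hB : ac N β (ac N α x) = z ∧ Pr z ∧ y / 2 < (β.det.natAbs : ℝ) ∧
      (β.det.natAbs : ℝ) ≤ y ∧ sz (kk (aN (cR β)) k (cR β) (mt h)) ≤ 2
    · rw [if_pos hA, if_pos hB]
      obtain ⟨_, _, a1, a2, a3⟩ := hA
      obtain ⟨b0, bz, b1, b2, b3⟩ := hB
      have hα : α.det ≠ 0 := det_ne_of_pos α (y / 2) (by linarith) a1
      have hI : IU y g x k z (β * α) := by
        refine ⟨?_, bz, ?_, ?_, ?_⟩
        · rw [hac]
          exact b0
        · rw [natAbs_det_mul]
          calc y ^ 2 / 4 = y / 2 * (y / 2) := by ring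
            _ < (β.det.natAbs : ℝ) * (α.det.natAbs : ℝ) :=
                mul_lt_mul'' b1 a1 (by linarith) (by linarith)
        · rw [natAbs_det_mul]
          calc (β.det.natAbs : ℝ) * (α.det.natAbs : ℝ) ≤ y * y :=
                mul_le_mul b2 a2 (Nat.cast_nonneg _) hy.le
            _ = y ^ 2 := by ring
        · rw [cR_mul, kk_comp (cR α) (cR β) g (mt h) k hh]
          calc sz (kk (aN (cR β)) k (cR β) (mt h) * kk (aN (cR α)) (mt h) (cR α) g)
              ≤ m * (2 * 2) := sz_mul_le _ _ 2 2 b3 a3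
            _ = 4 * m := by ring
      have hG : GG g (β * α) α h = 1 := by
        unfold GG
        refine if_pos ⟨?_, a3⟩
        rw [(hIDX m).2.2.1 α (β * α)]
        exact ⟨β, rfl⟩
      rw [if_pos hα, if_pos hI, hG, one_mul]
    · rw [if_neg hB, mul_zero]
      exact zero_le
  · rw [if_neg hA, zero_mul]
    exact zero_le

open Classical in
/-- the pairs at one point -/
theorem pointU_le (hIDX : T_IDX) {m N : ℕ} [NeZero N]
    (hac : ∀ (α β : ZM m) (x : VN m N), ac N (α * β) x = ac N α (ac N β x))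
    (y : ℝ) (hy : 0 < y) (g k : Mat m)
    (x z : VN m N) (h : V m) (hh : (mt h).det ≠ 0) :
    ∑ w : VN m N, Pu y g x (mt h) w * Pu y (mt h) w k z ≤
      ∑' γ : ZM m, if IU y g x k z γ then
        ∑' α : ZM m, (if α.det ≠ 0 then GG g γ α h else 0) else 0 := by
  have h1 : ∀ w : VN m N, Pu y g x (mt h) w * Pu y (mt h) w k z = ∑' α : ZM m, ∑' β : ZM m,
      (if ac N α x = w ∧ Pr w ∧ y / 2 < (α.det.natAbs : ℝ) ∧
      (α.det.natAbs : ℝ) ≤ y ∧ sz (kk (aN (cR α)) (mt h) (cR α) g) ≤ 2 then (1 : ENNReal) else 0) *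
      (if ac N β w = z ∧ Pr z ∧ y / 2 < (β.det.natAbs : ℝ) ∧
      (β.det.natAbs : ℝ) ≤ y ∧ sz (kk (aN (cR β)) k (cR β) (mt h)) ≤ 2 then (1 : ENNReal)
        else 0) := by
    intro w
    unfold Pu
    rw [← ENNReal.tsum_mul_right]
    refine tsum_congr fun α => ?_
    rw [← ENNReal.tsum_mul_left]
  rw [Finset.sum_congr rfl fun w _ => h1 w]
  rw [← Summable.tsum_finsetSum (fun _ _ => ENNReal.summable)]
  calc ∑' α : ZM m, ∑ w : VN m N, ∑' β : ZM m, _
      = ∑' α : ZM m, ∑' β : ZM m, ∑ w : VN m N, _ := by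
        refine tsum_congr fun α => ?_
        exact (Summable.tsum_finsetSum (fun _ _ => ENNReal.summable)).symm
    _ ≤ ∑' α : ZM m, ∑' β : ZM m,
        (if α.det ≠ 0 then (if IU y g x k z (β * α) then GG g (β * α) α h else 0) else 0) :=
        ENNReal.tsum_le_tsum fun α => ENNReal.tsum_le_tsum fun β =>
          pairU_le hIDX hac y hy g k x z h hh α β
    _ ≤ ∑' α : ZM m, ∑' γ : ZM m,
        (if α.det ≠ 0 then (if IU y g x k z γ then GG g γ α h else 0) else 0) := by
        refine ENNReal.tsum_le_tsum fun α => ?_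
        by_cases hα : α.det ≠ 0
        · simp only [if_pos hα]
          exact ENNReal.tsum_comp_le_tsum_of_injective (right_inj α hα)
            (fun γ : ZM m => if IU y g x k z γ then GG g γ α h else 0)
        · simp only [if_neg hα]
          exact le_rfl
    _ = ∑' γ : ZM m, ∑' α : ZM m,
        (if α.det ≠ 0 then (if IU y g x k z γ then GG g γ α h else 0) else 0) := ENNReal.tsum_comm
    _ = ∑' γ : ZM m, if IU y g x k z γ then
        ∑' α : ZM m, (if α.det ≠ 0 then GG g γ α h else 0) else 0 := by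
        refine tsum_congr fun γ => ?_
        by_cases hI : IU y g x k z γ
        · simp only [if_pos hI]
        · simp only [if_neg hI, ite_self, tsum_zero]

theorem pf_H1U (hUNL : T_UNL) (hSHB : T_SHB) (hSEX : T_SEX) (hIDX : T_IDX) (hALU : T_ALU) :
    T_H1U := by
  classical
  intro m hm1
  obtain ⟨C, hC, hSH⟩ := hSHB m 2 hm1 two_pos
  refine ⟨C, hC, ?_⟩
  intro N _ D hN hD y hy g k x z hg _
  have hac : ∀ (α β : ZM m) (x : VN m N), ac N (α * β) x = ac N α (ac N β x) :=
    fun α β x => ((hALU m N hm1 hN).2.1 α β x).1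
  haveI : Countable (ZM m) := inferInstanceAs (Countable (Fin m → Fin m → ℤ))
  have hmeas : ∀ γ : ZM m, Measurable (fun h : V m => if IU y g x k z γ then
      ∑' α : ZM m, (if α.det ≠ 0 then GG g γ α h else 0) else 0) := by
    intro γ
    by_cases hI : IU y g x k z γ
    · simp only [if_pos hI]
      refine Measurable.tsum fun α => ?_
      by_cases hα : α.det ≠ 0
      · simp only [if_pos hα]
        exact meas_GG g γ α
      · simp only [if_neg hα]
        exact measurable_const
    · simp only [if_neg hI]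
      exact measurable_const
  calc PPu D y g x k z
      ≤ ∫⁻ h in D, ∑' γ : ZM m, (if IU y g x k z γ then
        ∑' α : ZM m, (if α.det ≠ 0 then GG g γ α h else 0) else 0) ∂(hm m) := by
        unfold PPu
        refine setLIntegral_mono' hD.meas fun h hh => ?_
        have h1 : (mt h).det ≠ 0 := by
          intro h0
          have h2 := (hD.shell h hh).1
          unfold aN at h2
          rw [h0, abs_zero, Real.zero_rpow] at h2
          · linarith
          · have : (0 : ℝ) < m := by exact_mod_cast hm1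
            positivity
        exact pointU_le hIDX hac y hy g k x z h h1
    _ = ∑' γ : ZM m, ∫⁻ h in D, (if IU y g x k z γ then
        ∑' α : ZM m, (if α.det ≠ 0 then GG g γ α h else 0) else 0) ∂(hm m) :=
        lintegral_tsum fun γ => (hmeas γ).aemeasurable
    _ ≤ ∑' γ : ZM m, ENNReal.ofReal C * (if IU y g x k z γ then (NL γ : ENNReal) else 0) := by
        refine ENNReal.tsum_le_tsum fun γ => ?_
        by_cases hI : IU y g x k z γ
        · simp only [if_pos hI]
          exact int_le hUNL hSEX hIDX hm1 D hD C hSH g hg γ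
            (det_ne_of_pos γ (y ^ 2 / 4) (by positivity) hI.2.2.1) _
        · simp only [if_neg hI, lintegral_zero, mul_zero]
          exact le_rfl
    _ = ENNReal.ofReal C * Ku y g x k z := by
        rw [ENNReal.tsum_mul_left]
        unfold Ku
        refine congrArg _ (tsum_congr fun γ => ?_)
        by_cases hI : IU y g x k z γ
        · rw [if_pos hI]
          exact (if_pos hI).symm
        · rw [if_neg hI]
          exact (if_neg hI).symm

end Pool.Agent.H8.GU
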